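import Pool.Agent.N998.CT.Quart

set_option autoImplicit false

/-! Nef bundles of rank two: inequalities. -/

namespace Pool.Agent.Helper9N

open Pool.Agent.N998.CT

/-- **The sector.** If `p² < 4 q` and the first `n ≥ 8` numbers `h_j` are not negative, then
`4 n² (4 q - p²) ≤ 49 p²`. -/
theorem sector8 (p q : ℤ) (hD : p ^ 2 < 4 * q) (n : ℕ) (hn : 8 ≤ n)
    (h : ∀ j < n, 0 ≤ seg p q j) :
    0 < p ∧ 4 * (n : ℤ) ^ 2 * (4 * q - p ^ 2) ≤ 49 * p ^ 2 := by
  have hq0 : 0 < q := by nlinarith [sq_nonneg p]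
  have hDr : (p : ℝ) ^ 2 < 4 * q := by exact_mod_cast hD
  have hq0r : (0 : ℝ) < q := by exact_mod_cast hq0
  set ρ : ℝ := Real.sqrt q with hρ
  have hρ0 : 0 < ρ := Real.sqrt_pos.mpr hq0r
  have hρ2 : ρ ^ 2 = q := Real.sq_sqrt hq0r.le
  set x : ℝ := p / (2 * ρ) with hx
  have hx2 : x ^ 2 < 1 := by
    rw [hx, div_pow, mul_pow, hρ2, div_lt_one (by positivity)]
    linarith
  have hx1 : -1 < x ∧ x < 1 := by
    rw [← abs_lt]
    rw [← sq_lt_one_iff_abs_lt_one]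
    exact hx2
  set θ : ℝ := Real.arccos x with hθ
  have hcos : Real.cos θ = x := Real.cos_arccos hx1.1.le hx1.2.le
  have hθ0 : 0 < θ := Real.arccos_pos.mpr hx1.2
  have hθpi : θ < Real.pi := by
    rw [hθ]
    refine lt_of_le_of_ne (Real.arccos_le_pi x) ?_
    intro h1
    have h2 : Real.cos θ = -1 := by rw [hθ, h1, Real.cos_pi]
    linarith [hx1.1]
  have hsin : 0 < Real.sin θ := Real.sin_pos_of_pos_of_lt_pi hθ0 hθpi
  have hp : (p : ℝ) = 2 * ρ * Real.cos θ := by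
    rw [hcos, hx]
    field_simp
  have hst := seg_trig p q ρ θ hp hρ2.symm
  have hth : θ ≤ Real.pi / n := by
    apply theta_le θ hθ0 hθpi n (by omega)
    intro j hj
    have h1 := hst j
    have h2 : (0 : ℝ) ≤ seg p q j := by exact_mod_cast h j hj
    have h3 : 0 ≤ ρ ^ j * Real.sin ((j + 1) * θ) := by rw [← h1]; positivity
    exact nonneg_of_mul_nonneg_right h3 (by positivity)
  have hn0 : (8 : ℝ) ≤ n := by exact_mod_cast hn
  have hth2 : θ ≤ Real.pi / 8 := hth.trans (by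
    apply div_le_div_of_nonneg_left Real.pi_pos.le (by norm_num) hn0)
  have hpi4 : Real.pi < 3.15 := Real.pi_lt_d2
  have hcos1 : 1 - θ ^ 2 / 2 ≤ Real.cos θ := Real.one_sub_sq_div_two_le_cos
  have hth3 : θ ≤ 0.394 := by linarith
  have hcos2 : 0.92 ≤ Real.cos θ := by nlinarith
  have hsin1 : Real.sin θ ≤ θ := Real.sin_le hθ0.le
  have hp0r : 0 < (p : ℝ) := by rw [hp]; positivity
  have hp0 : 0 < p := by exact_mod_cast hp0r
  refine ⟨hp0, ?_⟩
  have e : 4 * (q : ℝ) - p ^ 2 = (2 * ρ * Real.sin θ) ^ 2 := by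
    have := Real.sin_sq_add_cos_sq θ
    rw [hp, ← hρ2]
    nlinarith
  have h1 : 2 * (Real.sin θ * n) ≤ 7 * Real.cos θ := by
    have h2 : θ * n ≤ Real.pi := by
      rwa [le_div_iff₀ (by linarith)] at hth
    have h3 : Real.sin θ * n ≤ θ * n := by gcongr
    linarith
  have h2 : (2 * (Real.sin θ * n)) ^ 2 ≤ (7 * Real.cos θ) ^ 2 :=
    pow_le_pow_left₀ (by positivity) h1 2
  have h3 : 4 * (n : ℝ) ^ 2 * (4 * (q : ℝ) - p ^ 2) ≤ 49 * (p : ℝ) ^ 2 := by
    rw [e, hp]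
    have h4 : (2 * ρ) ^ 2 * (2 * (Real.sin θ * n)) ^ 2 ≤ (2 * ρ) ^ 2 * (7 * Real.cos θ) ^ 2 :=
      mul_le_mul_of_nonneg_left h2 (by positivity)
    nlinarith
  exact_mod_cast h3

/-- **The unstable case with different roots.** -/
theorem ratio (α β z p q : ℤ) (hp : p = α + β) (hq : q = α * β + z) (hβ : 0 ≤ β)
    (hβα : β ≤ α) (hz : 0 < z) (hD : 4 * q < p ^ 2) (n : ℕ)
    (h : α * seg p q n ≤ seg p q (n + 1)) :
    ∃ x y : ℝ, 0 < y ∧ y < x ∧ (p : ℝ) = x + y ∧ (q : ℝ) = x * y ∧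
      (x - y) ^ 2 = (p : ℝ) ^ 2 - 4 * q ∧
      x ^ (n + 1) ≤ (1 + (x - y)) ^ 2 * y ^ (n + 1) := by
  have hq0 : 0 < q := by
    have : 0 ≤ α * β := mul_nonneg (hβ.trans hβα) hβ
    linarith
  have hq0r : (0 : ℝ) < q := by exact_mod_cast hq0
  have hDr : (4 : ℝ) * q < (p : ℝ) ^ 2 := by exact_mod_cast hD
  have hp0 : (0 : ℝ) ≤ p := by
    have : 0 ≤ p := by omega
    exact_mod_cast this
  have hzr : (1 : ℝ) ≤ z := by exact_mod_cast hz
  have hαβ : (β : ℝ) ≤ α := by exact_mod_cast hβα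
  have hpr : (p : ℝ) = α + β := by exact_mod_cast hp
  have hqr : (q : ℝ) = α * β + z := by exact_mod_cast hq
  set s : ℝ := Real.sqrt ((p : ℝ) ^ 2 - 4 * q) with hs
  have hs0 : 0 < s := Real.sqrt_pos.mpr (by linarith)
  have hs2 : s ^ 2 = (p : ℝ) ^ 2 - 4 * q := Real.sq_sqrt (by linarith)
  have hsp : s ≤ p := by
    apply abs_le_of_sq_le_sq' _ hp0 |>.2
    nlinarith
  set x : ℝ := ((p : ℝ) + s) / 2 with hx
  set y : ℝ := ((p : ℝ) - s) / 2 with hy
  have hx0 : 0 < x := by positivity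
  have hy0' : 0 ≤ y := by rw [hy]; linarith
  have hxs : x - y = s := by rw [hx, hy]; ring
  have hxy : (p : ℝ) = x + y := by rw [hx, hy]; ring
  have hxyq : (q : ℝ) = x * y := by
    rw [hx, hy]; nlinarith
  have hy0 : 0 < y := by
    rcases hy0'.eq_or_lt with h1 | h1
    · rw [← h1, mul_zero] at hxyq
      linarith
    · exact h1
  refine ⟨x, y, hy0, by linarith, hxy, hxyq, by rw [hxs, hs2], ?_⟩
  rw [hxs]
  set H : ℝ := (seg p q n : ℝ) with hH
  have hr : (α : ℝ) * H ≤ seg p q (n + 1) := by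
    rw [hH]; exact_mod_cast h
  have h1 := real_succ x y p q hxy hxyq n
  have h2 := real_succ y x p q (by rw [hxy]; ring) (by rw [hxyq]; ring) n
  rw [← hH] at h1 h2
  have hA : (α - x) * H ≤ y ^ (n + 1) := by linarith
  have hmul : s * H = x ^ (n + 1) - y ^ (n + 1) := by rw [← hxs]; linarith
  have hAB : ((α : ℝ) - x) * (α - y) = z := by
    have e : ((α : ℝ) - x) * (α - y) = α ^ 2 - (x + y) * α + x * y := by ring
    rw [e, ← hxy, ← hxyq, hpr, hqr]
    ring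
  have hBpos : 0 < (α : ℝ) - y := by
    have h3 : y ≤ α := by
      rw [hy]; linarith
    rcases eq_or_lt_of_le h3 with h4 | h4
    · rw [← h4, sub_self, mul_zero] at hAB
      linarith
    · linarith
  have hApos : 0 < (α : ℝ) - x := by
    by_contra hcon
    push Not at hcon
    have : ((α : ℝ) - x) * (α - y) ≤ 0 := mul_nonpos_of_nonpos_of_nonneg hcon hBpos.le
    linarith
  have hyN : 0 < y ^ (n + 1) := by positivity
  have hxN : 0 < x ^ (n + 1) := by positivity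
  -- `(α - x) x^N ≤ (α - y) y^N`
  have key : (α - x) * x ^ (n + 1) ≤ (α - y) * y ^ (n + 1) := by
    have h3 : s * ((α - x) * H) ≤ s * y ^ (n + 1) := mul_le_mul_of_nonneg_left hA hs0.le
    have h4 : s * ((α - x) * H) = (α - x) * (x ^ (n + 1) - y ^ (n + 1)) := by
      rw [← hmul]; ring
    have h5 : (α : ℝ) - y = (α - x) + s := by rw [← hxs]; ring
    rw [h4] at h3
    rw [h5]
    linarith
  rcases le_or_gt 1 ((α : ℝ) - x) with h3 | h3
  · have h4 : (α : ℝ) - y ≤ (α - x) * (1 + s) := by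
      have h5 : (α : ℝ) - y = (α - x) + s := by rw [← hxs]; ring
      rw [h5]
      nlinarith
    have h5 : (α - x) * x ^ (n + 1) ≤ (α - x) * ((1 + s) * y ^ (n + 1)) := by
      calc (α - x) * x ^ (n + 1) ≤ (α - y) * y ^ (n + 1) := key
        _ ≤ ((α - x) * (1 + s)) * y ^ (n + 1) := mul_le_mul_of_nonneg_right h4 hyN.le
        _ = _ := by ring
    have h6 := le_of_mul_le_mul_left h5 hApos
    refine h6.trans (mul_le_mul_of_nonneg_right ?_ hyN.le)
    nlinarith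
  · have h4 : (α : ℝ) - y ≤ 1 + s := by
      have h5 : (α : ℝ) - y = (α - x) + s := by rw [← hxs]; ring
      linarith
    have h5 : (z : ℝ) * x ^ (n + 1) ≤ (α - y) ^ 2 * y ^ (n + 1) := by
      calc (z : ℝ) * x ^ (n + 1) = (α - y) * ((α - x) * x ^ (n + 1)) := by rw [← hAB]; ring
        _ ≤ (α - y) * ((α - y) * y ^ (n + 1)) := mul_le_mul_of_nonneg_left key hBpos.le
        _ = _ := by ring
    have h6 : ((α : ℝ) - y) ^ 2 ≤ (1 + s) ^ 2 := pow_le_pow_left₀ hBpos.le h4 2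
    calc x ^ (n + 1) ≤ (z : ℝ) * x ^ (n + 1) := le_mul_of_one_le_left hxN.le hzr
      _ ≤ (α - y) ^ 2 * y ^ (n + 1) := h5
      _ ≤ _ := mul_le_mul_of_nonneg_right h6 hyN.le

/-- a lower bound for the smaller root -/
theorem root_lower (x y : ℝ) (hy : 0 < y) (hyx : y < x) (N k m : ℕ) (hkm : k * m ≤ N)
    (h : x ^ N ≤ (1 + (x - y)) ^ 2 * y ^ N) :
    (m * (x - y)) ^ k ≤ (1 + (x - y)) ^ 2 * y ^ k := by
  set u : ℝ := (x - y) / y with hu
  have hu0 : 0 < u := div_pos (by linarith) hy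
  have hxu : x = y * (1 + u) := by rw [hu]; field_simp; ring
  have h1 : (1 + u) ^ N ≤ (1 + (x - y)) ^ 2 := by
    rw [hxu, mul_pow] at h
    have h2 : y ^ N * (1 + u) ^ N ≤ y ^ N * (1 + (x - y)) ^ 2 := by
      calc y ^ N * (1 + u) ^ N ≤ (1 + (y * (1 + u) - y)) ^ 2 * y ^ N := h
        _ = _ := by rw [← hxu]; ring
    exact le_of_mul_le_mul_left h2 (by positivity)
  have h2 : (m * u) ^ k ≤ (1 + u) ^ N := by
    have h3 : 1 + (m : ℝ) * u ≤ (1 + u) ^ m := one_add_mul_le_pow (by linarith) m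
    calc (m * u) ^ k ≤ (1 + (m : ℝ) * u) ^ k :=
          pow_le_pow_left₀ (by positivity) (by linarith) k
      _ ≤ ((1 + u) ^ m) ^ k := pow_le_pow_left₀ (by positivity) h3 k
      _ = (1 + u) ^ (k * m) := by rw [← pow_mul, mul_comm]
      _ ≤ (1 + u) ^ N := pow_le_pow_right₀ (by linarith) hkm
  have h3 : (m * (x - y)) ^ k = (m * u) ^ k * y ^ k := by
    rw [← mul_pow, hu]
    congr 1
    field_simp
  rw [h3]
  exact mul_le_mul_of_nonneg_right (h2.trans h1) (by positivity)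

end Pool.Agent.Helper9N
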