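import Pool.Agent.Helper9N.Ineq

set_option autoImplicit false

/-! Nef bundles of rank two: the bounds. -/

namespace Pool.Agent.Helper9N

open Pool.Agent.N998.CT Pool.Agent.R920.CH Pool.Agent.R852.BC Finset Filter

lemma blockN7 : allb (both 2) 13 0 = true := by decide +kernel

lemma blockN10 : allb (both 4) 20 0 = true := by decide +kernel

/-- the case of negative discriminants -/
lemma neg8 (n : ℕ) (hn : 7 ≤ n) (c₁ c₂ : ℤ) (hRR : RiemannRoch n (poly2 c₁ c₂))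
    (hseg : ∀ j : ℕ, j ≤ n → 0 ≤ seg c₁ c₂ j) (hD : c₁ ^ 2 < 4 * c₂) :
    0 < c₁ ∧ ∃ m e : ℕ, e ≤ 1 ∧ 0 < m ∧ (m + e) % 4 = 0 ∧ (m : ℤ) = 4 * c₂ - c₁ ^ 2 ∧
      4 * ((n : ℤ) + 1) ^ 2 * m ≤ 49 * c₁ ^ 2 ∧
      ∀ h : ℕ, 1 ≤ h → 2 * h ≤ n → md h ∣ pr m e h := by
  obtain ⟨hp, hs⟩ := sector8 c₁ c₂ hD (n + 1) (by omega) (fun j hj => hseg j (by omega))
  obtain ⟨m, hm⟩ : ∃ m : ℕ, (m : ℤ) = 4 * c₂ - c₁ ^ 2 := ⟨(4 * c₂ - c₁ ^ 2).toNat, by
    rw [Int.toNat_of_nonneg (by linarith)]⟩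
  obtain ⟨e, he⟩ : ∃ e : ℕ, (e : ℤ) = c₁ % 2 := ⟨(c₁ % 2).toNat, by
    rw [Int.toNat_of_nonneg (by omega)]⟩
  refine ⟨hp, m, e, by omega, by zify; linarith, ?_, hm, ?_, ?_⟩
  · have h1 : c₁ = 2 * (c₁ / 2) + e := by omega
    have h2 : (e : ℤ) = 0 ∨ (e : ℤ) = 1 := by omega
    have h3 : ((m : ℤ) + e) % 4 = 0 := by
      rw [hm, h1]
      rcases h2 with h2 | h2
      · rw [h2]
        have : 4 * c₂ - (2 * (c₁ / 2) + 0) ^ 2 + 0 = 4 * (c₂ - (c₁ / 2) ^ 2) := by ring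
        rw [this]; exact Int.mul_emod_right _ _
      · rw [h2]
        have : 4 * c₂ - (2 * (c₁ / 2) + 1) ^ 2 + 1 = 4 * (c₂ - (c₁ / 2) ^ 2 - c₁ / 2) := by ring
        rw [this]; exact Int.mul_emod_right _ _
    omega
  · rw [hm]
    push_cast at hs
    exact hs
  · intro h h1 h2
    have h3 := divis hRR h1 h2
    have e3 : ∀ j ∈ range h, (c₁ ^ 2 - 4 * c₂ - (2 * (j : ℤ) + c₁ % 2) ^ 2) =
        -((m : ℤ) + (2 * j + e) ^ 2) := by
      intro j _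
      rw [he, hm]; ring
    rw [prod_congr rfl e3, prod_neg] at h3
    have h4 : (2 ^ (2 * h - 1) * (2 * h).factorial : ℤ) ∣
        ∏ j ∈ range h, ((m : ℤ) + (2 * j + e) ^ 2) := by
      rcases neg_one_pow_eq_or ℤ (range h).card with h5 | h5
      · rw [h5, one_mul] at h3; exact h3
      · rw [h5, neg_one_mul, dvd_neg] at h3; exact h3
    unfold md pr
    exact_mod_cast h4

/-- lower bounds for `|D|` -/
lemma m_steps (n m e : ℕ) (hn : 7 ≤ n) (he : e ≤ 1) (hm : 0 < m) (hme : (m + e) % 4 = 0)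
    (hdiv : ∀ h : ℕ, 1 ≤ h → 2 * h ≤ n → md h ∣ pr m e h) :
    55 ≤ m ∧ (10 ≤ n → 83 ≤ m) ∧ (12 ≤ n → 479 ≤ m) ∧ (14 ≤ n → 1559 ≤ m) ∧
      (34 ≤ n → 24003 ≤ m) := by
  have key : ∀ l, 1 < l → 2 * l ≤ n → ¬ md l ∣ pr m e l → False :=
    fun l h1 h2 h3 => h3 (hdiv l (by omega) h2)
  have hcase : (∃ i, m = 4 * i + 3 ∧ e = 1) ∨ (∃ i, m = 4 * i + 4 ∧ e = 0) := by
    rcases Nat.le_one_iff_eq_zero_or_eq_one.mp he with h | h
    · right
      exact ⟨m / 4 - 1, by omega, h⟩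
    · left
      exact ⟨m / 4, by omega, h⟩
  have step : ∀ k K : ℕ, 2 * (1 + k) ≤ n → (∀ i, i < K → both k i = true) → 4 * K + 3 ≤ m := by
    intro k K hk hall
    by_contra hcon
    push Not at hcon
    rcases hcase with ⟨i, rfl, rfl⟩ | ⟨i, rfl, rfl⟩
    · obtain ⟨⟨l, h5, h6, h7⟩, -⟩ := both_spec _ _ (hall i (by omega))
      exact key l h5 (by omega) h7
    · obtain ⟨-, l, h5, h6, h7⟩ := both_spec _ _ (hall i (by omega))
      exact key l h5 (by omega) h7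
  refine ⟨?_, fun h => ?_, fun h => ?_, fun h => ?_, fun h => ?_⟩
  · exact step 2 13 (by omega) fun i hi => allb_spec _ _ _ blockN7 i (by omega) (by omega)
  · exact step 4 20 (by omega) fun i hi => allb_spec _ _ _ blockN10 i (by omega) (by omega)
  · exact step 5 119 (by omega) fun i hi => allb_spec _ _ _ blockA i (by omega) (by omega)
  · exact step 6 389 (by omega) fun i hi => allb_spec _ _ _ blockB i (by omega) (by omega)
  · refine step 16 6000 (by omega) fun i hi => ?_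
    rcases lt_or_ge i 1000 with h | h
    · exact allb_spec _ _ _ blockC0 i (by omega) (by omega)
    rcases lt_or_ge i 2000 with h' | h'
    · exact allb_spec _ _ _ blockC1 i (by omega) (by omega)
    rcases lt_or_ge i 3000 with h'' | h''
    · exact allb_spec _ _ _ blockC2 i (by omega) (by omega)
    rcases lt_or_ge i 4000 with h''' | h'''
    · exact allb_spec _ _ _ blockC3 i (by omega) (by omega)
    rcases lt_or_ge i 5000 with h4 | h4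
    · exact allb_spec _ _ _ blockC4 i (by omega) (by omega)
    · exact allb_spec _ _ _ blockC5 i (by omega) (by omega)

lemma m_large (n m e : ℕ) (hn : 7 ≤ n) (he : e ≤ 1) (hm : 0 < m) (hme : (m + e) % 4 = 0)
    (hdiv : ∀ h : ℕ, 1 ≤ h → 2 * h ≤ n → md h ∣ pr m e h) :
    49 * (n : ℤ) ^ 4 < 576 * ((n : ℤ) + 1) ^ 2 * m ∧
      (n ≤ 177 → 49 * (n : ℤ) ^ 4 ≤ 64 * ((n : ℤ) + 1) ^ 2 * m) := by
  obtain ⟨s1, s2, s3, s4, s5⟩ := m_steps n m e hn he hm hme hdiv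
  rcases lt_or_ge n 34 with h34 | h34
  · have hmain : 49 * (n : ℤ) ^ 4 ≤ 64 * ((n : ℤ) + 1) ^ 2 * m := by
      have h1 : 49 * n ^ 4 ≤ 64 * (n + 1) ^ 2 * m := by
        rcases lt_or_ge n 10 with h | h
        · calc 49 * n ^ 4 ≤ 64 * (n + 1) ^ 2 * 55 := by interval_cases n <;> norm_num
            _ ≤ _ := Nat.mul_le_mul_left _ s1
        rcases lt_or_ge n 12 with h' | h'
        · calc 49 * n ^ 4 ≤ 64 * (n + 1) ^ 2 * 83 := by interval_cases n <;> norm_num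
            _ ≤ _ := Nat.mul_le_mul_left _ (s2 h)
        rcases lt_or_ge n 14 with h'' | h''
        · calc 49 * n ^ 4 ≤ 64 * (n + 1) ^ 2 * 479 := by interval_cases n <;> norm_num
            _ ≤ _ := Nat.mul_le_mul_left _ (s3 h')
        · calc 49 * n ^ 4 ≤ 64 * (n + 1) ^ 2 * 1559 := by interval_cases n <;> norm_num
            _ ≤ _ := Nat.mul_le_mul_left _ (s4 h'')
      exact_mod_cast h1
    refine ⟨?_, fun _ => hmain⟩
    have h2 : 0 < ((n : ℤ) + 1) ^ 2 * m := by positivity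
    nlinarith
  · have s6 := s5 h34
    have s6' : (24003 : ℤ) ≤ m := by exact_mod_cast s6
    have hn34 : (34 : ℤ) ≤ n := by exact_mod_cast h34
    constructor
    · rcases le_or_gt n 494 with hN1 | hN1
      · have hn2 : (n : ℤ) ≤ 494 := by exact_mod_cast hN1
        set x : ℤ := (n : ℤ) with hx
        have h1 : 7 * x ^ 2 ≤ 3718 * (x + 1) := by nlinarith
        have h2 : (7 * x ^ 2) ^ 2 ≤ (3718 * (x + 1)) ^ 2 := pow_le_pow_left₀ (by positivity) h1 2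
        have h3 : 0 < (x + 1) ^ 2 := by positivity
        have h4 : (x + 1) ^ 2 * 24003 ≤ (x + 1) ^ 2 * m := mul_le_mul_of_nonneg_left s6' h3.le
        nlinarith
      · set h : ℕ := n / 2 with hh
        set J : ℕ := (h - 1) / 3 with hJ
        have hmJ : 4 * J ^ 2 < m := by
          by_contra hcon
          push Not at hcon
          have h5 := pr_lt J m e h he hcon (by omega) (by omega)
          have h6 := hdiv h (by omega) (by omega)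
          exact absurd (Nat.le_of_dvd (pr_pos m e h hm) h6) (not_le.mpr h5)
        have hJN : (n : ℤ) - 7 ≤ 6 * J := by omega
        have hNr : (495 : ℤ) ≤ n := by exact_mod_cast hN1
        have hmJ' : 4 * (J : ℤ) ^ 2 < m := by exact_mod_cast hmJ
        set x : ℤ := (n : ℤ) with hx
        have h1 : (x - 7) ^ 2 ≤ 36 * (J : ℤ) ^ 2 := by nlinarith
        have h2 : (x - 7) ^ 2 ≤ 9 * m := by linarith
        have h3 : (x + 1) ^ 2 * (x - 7) ^ 2 ≤ (x + 1) ^ 2 * (9 * m) :=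
          mul_le_mul_of_nonneg_left h2 (by positivity)
        have h5 : 21 * x ^ 2 < 24 * ((x + 1) * (x - 7)) := by nlinarith
        have h8 : (21 * x ^ 2) ^ 2 < (24 * ((x + 1) * (x - 7))) ^ 2 :=
          pow_lt_pow_left₀ h5 (by positivity) two_ne_zero
        nlinarith
    · intro h177
      have hn2 : (n : ℤ) ≤ 177 := by exact_mod_cast h177
      set x : ℤ := (n : ℤ) with hx
      have h1 : 7 * x ^ 2 ≤ 1239 * (x + 1) := by nlinarith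
      have h2 : (7 * x ^ 2) ^ 2 ≤ (1239 * (x + 1)) ^ 2 := pow_le_pow_left₀ (by positivity) h1 2
      have h3 : 0 < (x + 1) ^ 2 := by positivity
      have h4 : (x + 1) ^ 2 * 24003 ≤ (x + 1) ^ 2 * m := mul_le_mul_of_nonneg_left s6' h3.le
      nlinarith

/-- **Explicit bounds, negative discriminants.** -/
theorem explicit_neg (n : ℕ) (hn : 7 ≤ n) (c₁ c₂ : ℤ) (hRR : RiemannRoch n (poly2 c₁ c₂))
    (hseg : ∀ j : ℕ, j ≤ n → 0 ≤ seg c₁ c₂ j) (hD : c₁ ^ 2 < 4 * c₂) :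
    (n : ℤ) ^ 2 < 12 * c₁ ∧ (n ≤ 177 → (n : ℤ) ^ 2 ≤ 4 * c₁) := by
  obtain ⟨hp, m, e, he, hm, hme, -, hs, hdiv⟩ := neg8 n hn c₁ c₂ hRR hseg hD
  obtain ⟨h1, h2⟩ := m_large n m e hn he hm hme hdiv
  constructor
  · have h3 : ((n : ℤ) ^ 2) ^ 2 < (12 * c₁) ^ 2 := by nlinarith
    exact lt_of_pow_lt_pow_left₀ 2 (by positivity) h3
  · intro h177
    have h3 : ((n : ℤ) ^ 2) ^ 2 ≤ (4 * c₁) ^ 2 := by nlinarith [h2 h177]
    exact le_of_sq_le_sq h3 (by positivity)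

/-- **The unstable case.** -/
theorem unstable_bound (n : ℕ) (hn : 2 ≤ n) (c₁ c₂ a b : ℤ) (hab : a + b = c₁) (hba : b ≤ a)
    (hz : (n : ℤ) ^ 2 / 4 ≤ c₂ - a * b) (hD : 4 * c₂ ≤ c₁ ^ 2)
    (h : ∀ j : ℕ, j + 1 ≤ n → a * seg c₁ c₂ j ≤ seg c₁ c₂ (j + 1)) :
    (n : ℤ) ^ 2 ≤ c₁ ∧ (n : ℤ) ^ 2 * ((n : ℤ) ^ 2 / 4) ≤ c₂ := by
  have hn2 : (2 : ℤ) ≤ n := by exact_mod_cast hn
  have hn4 : (4 : ℤ) ≤ (n : ℤ) ^ 2 := by nlinarith
  have hz0 : 0 < c₂ - a * b := lt_of_lt_of_le (by omega) hz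
  have hb : 0 ≤ b := by
    have h0 := h 0 (by omega)
    simp only [seg] at h0
    linarith
  obtain ⟨l, rfl⟩ : ∃ l, n = l + 1 := ⟨n - 1, by omega⟩
  have h1 := main_ineq a b (c₂ - a * b) c₁ c₂ hab.symm (by ring) hb hba hz0 hD l (h l le_rfl)
  have h2 : (((l + 1 : ℕ) : ℤ)) ^ 2 * (((l + 1 : ℕ) : ℤ) ^ 2 / 4) ≤ c₂ := by
    calc (((l + 1 : ℕ) : ℤ)) ^ 2 * (((l + 1 : ℕ) : ℤ) ^ 2 / 4)
        ≤ (((l + 1 : ℕ) : ℤ)) ^ 2 * (c₂ - a * b) := mul_le_mul_of_nonneg_left hz (by positivity)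
      _ = (c₂ - a * b) * ((l : ℤ) + 1) ^ 2 := by push_cast; ring
      _ ≤ c₂ := h1
  refine ⟨?_, h2⟩
  have hc : 0 ≤ c₁ := by linarith
  set x : ℤ := ((l + 1 : ℕ) : ℤ) with hx
  -- `(x² - 1)² < c₁²`
  have h3 : x ^ 2 - 1 ≤ 4 * (x ^ 2 / 4) := by
    have h5 : x ^ 2 % 4 = 0 ∨ x ^ 2 % 4 = 1 := by
      have h6 : x % 4 = 0 ∨ x % 4 = 1 ∨ x % 4 = 2 ∨ x % 4 = 3 := by omega
      rcases h6 with h | h | h | h <;> simp [pow_two, Int.mul_emod, h]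
    omega
  have h4 : x ^ 2 * (x ^ 2 - 1) ≤ c₁ ^ 2 := by
    calc x ^ 2 * (x ^ 2 - 1) ≤ x ^ 2 * (4 * (x ^ 2 / 4)) :=
          mul_le_mul_of_nonneg_left h3 (by positivity)
      _ = 4 * (x ^ 2 * (x ^ 2 / 4)) := by ring
      _ ≤ 4 * c₂ := by linarith
      _ ≤ c₁ ^ 2 := hD
  have h5 : (x ^ 2 - 1) ^ 2 < c₁ ^ 2 := by nlinarith
  have h6 := lt_of_pow_lt_pow_left₀ 2 hc h5
  omega

/-- discriminants which are not squares are large -/
theorem disc_large (ε : ℝ) (hε : 0 < ε) : ∀ᶠ n : ℕ in atTop, ∀ c₁ c₂ : ℤ,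
    RiemannRoch n (poly2 c₁ c₂) → ¬ IsSquare (c₁ ^ 2 - 4 * c₂) →
    (n : ℝ) ^ (4 * Real.exp (1 / 2) - ε) < |(c₁ : ℝ) ^ 2 - 4 * c₂| := by
  filter_upwards [rank_two 7 ε hε, eventually_ge_atTop 1] with n hn hn1 c₁ c₂ hRR hns
  by_contra hcon
  push Not at hcon
  have hnone : (1 : ℝ) ≤ n := by exact_mod_cast hn1
  have hexp := exp_half_bounds.2
  have h3 : ((|c₁ ^ 2 - 4 * c₂| : ℤ) : ℝ) ≤ (n : ℝ) ^ (4 * Real.exp (1 / 2) - ε) := by
    push_cast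
    exact hcon
  obtain ⟨a, b, hab, hab2⟩ := hn c₁ c₂ (c₁ ^ 2 - 4 * c₂) 1 hRR (by ring)
    (h3.trans (Real.rpow_le_rpow_of_exponent_le hnone (by linarith))) h3
  exact hns ⟨a - b, by rw [hab, hab2]; ring⟩

/-- **Asymptotic bounds, negative discriminants.** -/
theorem asym_neg (ε : ℝ) (hε : 0 < ε) : ∀ᶠ n : ℕ in atTop, ∀ c₁ c₂ : ℤ,
    RiemannRoch n (poly2 c₁ c₂) → (∀ j : ℕ, j ≤ n → 0 ≤ seg c₁ c₂ j) → c₁ ^ 2 < 4 * c₂ →
    (n : ℝ) ^ (2 * Real.exp (1 / 2) + 1 - ε) ≤ c₁ ∧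
      (n : ℝ) ^ (4 * Real.exp (1 / 2) + 2 - ε) ≤ c₂ := by
  filter_upwards [disc_large (ε / 2) (by positivity), ev_ge 49 (ε / 2) (by positivity),
    eventually_ge_atTop 7] with n hd h49 hn7 c₁ c₂ hRR hseg hD
  have hn7r : (7 : ℝ) ≤ n := by exact_mod_cast hn7
  have hn0 : (0 : ℝ) < n := by linarith
  have hnone : (1 : ℝ) ≤ n := by linarith
  obtain ⟨hp, m, e, he, hm, hme, hmD, hs, hdiv⟩ := neg8 n hn7 c₁ c₂ hRR hseg hD
  have hns : ¬ IsSquare (c₁ ^ 2 - 4 * c₂) := by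
    rintro ⟨s, hs⟩
    nlinarith [mul_self_nonneg s]
  have h1 := hd c₁ c₂ hRR hns
  have hDr : (c₁ : ℝ) ^ 2 < 4 * c₂ := by exact_mod_cast hD
  have hmr : (m : ℝ) = 4 * c₂ - (c₁ : ℝ) ^ 2 := by exact_mod_cast hmD
  rw [abs_of_neg (by linarith), neg_sub, ← hmr] at h1
  have hsr : 4 * ((n : ℝ) + 1) ^ 2 * m ≤ 49 * (c₁ : ℝ) ^ 2 := by exact_mod_cast hs
  have hc0 : (0 : ℝ) < c₁ := by exact_mod_cast hp
  have e1 : (n : ℝ) ^ (4 * Real.exp (1 / 2) + 2 - ε) * (n : ℝ) ^ (ε / 2) =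
      (n : ℝ) ^ 2 * (n : ℝ) ^ (4 * Real.exp (1 / 2) - ε / 2) := by
    rw [← Real.rpow_natCast (n : ℝ) 2, ← Real.rpow_add hn0, ← Real.rpow_add hn0]
    congr 1
    push_cast; ring
  have h2 : 49 * (4 * (n : ℝ) ^ (4 * Real.exp (1 / 2) + 2 - ε)) ≤ 49 * (c₁ : ℝ) ^ 2 := by
    calc 49 * (4 * (n : ℝ) ^ (4 * Real.exp (1 / 2) + 2 - ε))
        = 4 * ((n : ℝ) ^ (4 * Real.exp (1 / 2) + 2 - ε) * 49) := by ring
      _ ≤ 4 * ((n : ℝ) ^ (4 * Real.exp (1 / 2) + 2 - ε) * (n : ℝ) ^ (ε / 2)) := by gcongr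
      _ = 4 * ((n : ℝ) ^ 2 * (n : ℝ) ^ (4 * Real.exp (1 / 2) - ε / 2)) := by rw [e1]
      _ ≤ 4 * (((n : ℝ) + 1) ^ 2 * m) := by
          gcongr
          linarith
      _ = 4 * ((n : ℝ) + 1) ^ 2 * m := by ring
      _ ≤ _ := hsr
  have h3 : 4 * (n : ℝ) ^ (4 * Real.exp (1 / 2) + 2 - ε) ≤ (c₁ : ℝ) ^ 2 := by linarith
  have hpos : 0 ≤ (n : ℝ) ^ (4 * Real.exp (1 / 2) + 2 - ε) := by positivity
  constructor
  · have h4 : ((n : ℝ) ^ (2 * Real.exp (1 / 2) + 1 - ε)) ^ 2 ≤ (c₁ : ℝ) ^ 2 := by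
      calc ((n : ℝ) ^ (2 * Real.exp (1 / 2) + 1 - ε)) ^ 2
          = (n : ℝ) ^ (4 * Real.exp (1 / 2) + 2 - 2 * ε) := by
            rw [← Real.rpow_natCast, ← Real.rpow_mul hn0.le]
            congr 1
            push_cast; ring
        _ ≤ (n : ℝ) ^ (4 * Real.exp (1 / 2) + 2 - ε) :=
            Real.rpow_le_rpow_of_exponent_le hnone (by linarith)
        _ ≤ _ := by linarith
    exact (pow_le_pow_iff_left₀ (by positivity) hc0.le two_ne_zero).mp h4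
  · linarith

/-- **Asymptotic bounds, positive discriminants which are not squares.** -/
theorem asym_pos (ε : ℝ) (hε : 0 < ε) : ∀ᶠ n : ℕ in atTop, ∀ c₁ c₂ a b : ℤ,
    RiemannRoch n (poly2 c₁ c₂) → 4 * c₂ ≤ c₁ ^ 2 → ¬ IsSquare (c₁ ^ 2 - 4 * c₂) →
    a + b = c₁ → b ≤ a → 0 < c₂ - a * b →
    (∀ j : ℕ, j + 1 ≤ n → a * seg c₁ c₂ j ≤ seg c₁ c₂ (j + 1)) →
    (n : ℝ) ^ (2 * Real.exp (1 / 2) + 1 - ε) ≤ c₁ ∧
      (n : ℝ) ^ (4 * Real.exp (1 / 2) + 2 - ε) ≤ c₂ := by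
  obtain ⟨k, hk⟩ := exists_nat_ge (3 + 64 / ε)
  have hk3 : (3 : ℝ) ≤ k := by
    have : 0 < 64 / ε := by positivity
    linarith
  have hk3' : 3 ≤ k := by exact_mod_cast hk3
  have hkε : 64 ≤ ε * k := by
    have h1 : 64 / ε ≤ k := by linarith
    rw [div_le_iff₀ hε] at h1
    linarith
  filter_upwards [disc_large (ε / 4) (by positivity), eventually_ge_atTop (k + 7),
    tendsto_natCast_atTop_atTop.eventually_ge_atTop (5 * (2 * (k : ℝ)) ^ k)]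
    with n hd hn7 hbig c₁ c₂ a b hRR hD hns hab hba hz h
  set E : ℝ := Real.exp (1 / 2) with hE
  have hEb := exp_half_bounds
  rw [← hE] at hEb
  have hk0 : (0 : ℝ) < k := by linarith
  have hn0 : (0 : ℝ) < n := by exact_mod_cast (by omega : 0 < n)
  have hnone : (1 : ℝ) ≤ n := by exact_mod_cast (by omega : 1 ≤ n)
  have hD' : 4 * c₂ < c₁ ^ 2 := by
    rcases hD.eq_or_lt with h1 | h1
    · exact absurd ⟨0, by linarith⟩ hns
    · exact h1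
  have hb : 0 ≤ b := by
    have h0 := h 0 (by omega)
    simp only [seg] at h0
    linarith
  obtain ⟨l, rfl⟩ : ∃ l, n = l + 1 := ⟨n - 1, by omega⟩
  obtain ⟨x, y, hy, hyx, hxy, hxyq, hs2, hpow⟩ :=
    ratio a b (c₂ - a * b) c₁ c₂ hab.symm (by ring) hb hba hz hD' l (h l le_rfl)
  set n : ℕ := l + 1 with hn
  set m : ℕ := n / k with hm
  have hkm : k * m ≤ n := Nat.mul_div_le n k
  have hmk : n < k * (m + 1) := Nat.lt_mul_div_succ n (by omega)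
  have hm1 : 1 ≤ m := by
    rw [hm, Nat.one_le_div_iff (by omega)]
    omega
  have hm1r : (1 : ℝ) ≤ m := by exact_mod_cast hm1
  have hmn : (n : ℝ) / (2 * k) ≤ m := by
    rw [div_le_iff₀ (by positivity)]
    have h1 : (n : ℝ) < k * (m + 1) := by exact_mod_cast hmk
    nlinarith
  have hrl := root_lower x y hy hyx n k m hkm hpow
  set δ : ℝ := x - y with hδ
  have hδ0 : 0 < δ := by linarith
  -- the size of `δ`
  have hlarge := hd c₁ c₂ hRR hns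
  rw [← hs2, abs_of_pos (by positivity)] at hlarge
  have hδL : (n : ℝ) ^ (2 * E - ε / 8) ≤ δ := by
    have h1 : ((n : ℝ) ^ (2 * E - ε / 8)) ^ 2 ≤ δ ^ 2 := by
      calc ((n : ℝ) ^ (2 * E - ε / 8)) ^ 2 = (n : ℝ) ^ (4 * E - ε / 4) := by
            rw [← Real.rpow_natCast, ← Real.rpow_mul hn0.le]
            congr 1
            push_cast; ring
        _ ≤ _ := hlarge.le
    exact (pow_le_pow_iff_left₀ (by positivity) hδ0.le two_ne_zero).mp h1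
  have hδ1 : 1 ≤ δ := by
    -- `δ² = c₁² - 4 c₂` is a positive integer
    have h1 : (1 : ℤ) ≤ c₁ ^ 2 - 4 * c₂ := by omega
    have h2 : (1 : ℝ) ≤ δ ^ 2 := by
      rw [hs2]
      exact_mod_cast h1
    nlinarith
  have h4δ : (1 + δ) ^ 2 ≤ 4 * δ ^ 2 := by nlinarith
  have hyT : (n : ℝ) ^ (2 * E + 1 - ε / 2) ≤ y := by
    by_contra hcon
    push Not at hcon
    obtain ⟨k', hk'⟩ : ∃ k', k = k' + 2 := ⟨k - 2, by omega⟩
    have g1 : (m : ℝ) ^ k * δ ^ k' ≤ 4 * y ^ k := by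
      have h1 : δ ^ 2 * ((m : ℝ) ^ k * δ ^ k') ≤ δ ^ 2 * (4 * y ^ k) := by
        calc δ ^ 2 * ((m : ℝ) ^ k * δ ^ k') = (m * δ) ^ k := by
              rw [mul_pow, hk', pow_add δ k' 2]; ring
          _ ≤ (1 + δ) ^ 2 * y ^ k := hrl
          _ ≤ (4 * δ ^ 2) * y ^ k := by gcongr
          _ = _ := by ring
      exact le_of_mul_le_mul_left h1 (by positivity)
    have g2 : ((n : ℝ) / (2 * k)) ^ k * ((n : ℝ) ^ (2 * E - ε / 8)) ^ k' ≤
        4 * ((n : ℝ) ^ (2 * E + 1 - ε / 2)) ^ k := by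
      calc ((n : ℝ) / (2 * k)) ^ k * ((n : ℝ) ^ (2 * E - ε / 8)) ^ k' ≤
            (m : ℝ) ^ k * δ ^ k' := by gcongr
        _ ≤ 4 * y ^ k := g1
        _ ≤ _ := by gcongr
    have g3 : (n : ℝ) ^ ((k : ℝ) + (2 * E - ε / 8) * (k - 2)) ≤
        4 * (2 * (k : ℝ)) ^ k * (n : ℝ) ^ ((2 * E + 1 - ε / 2) * k) := by
      have e1 : (n : ℝ) ^ ((k : ℝ) + (2 * E - ε / 8) * (k - 2)) =
          (n : ℝ) ^ k * ((n : ℝ) ^ (2 * E - ε / 8)) ^ k' := by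
        rw [Real.rpow_add hn0, Real.rpow_natCast, ← Real.rpow_natCast _ k',
          ← Real.rpow_mul hn0.le]
        congr 2
        rw [hk']
        push_cast; ring
      have e2 : (n : ℝ) ^ ((2 * E + 1 - ε / 2) * k) = ((n : ℝ) ^ (2 * E + 1 - ε / 2)) ^ k := by
        rw [Real.rpow_mul hn0.le, Real.rpow_natCast]
      rw [e1, e2]
      rw [div_pow, div_mul_eq_mul_div, div_le_iff₀ (by positivity)] at g2
      linarith
    have g4 : (n : ℝ) ^ (1 : ℝ) * (n : ℝ) ^ ((2 * E + 1 - ε / 2) * k) ≤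
        (n : ℝ) ^ ((k : ℝ) + (2 * E - ε / 8) * (k - 2)) := by
      rw [← Real.rpow_add hn0]
      apply Real.rpow_le_rpow_of_exponent_le hnone
      nlinarith
    have hpos : 0 < (n : ℝ) ^ ((2 * E + 1 - ε / 2) * k) := Real.rpow_pos_of_pos hn0 _
    have g5 := le_of_mul_le_mul_right (g4.trans g3) hpos
    rw [Real.rpow_one] at g5
    have hkk : 0 < (2 * (k : ℝ)) ^ k := by positivity
    linarith
  have hT0 : 0 ≤ (n : ℝ) ^ (2 * E + 1 - ε / 2) := by positivity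
  constructor
  · calc (n : ℝ) ^ (2 * E + 1 - ε) ≤ (n : ℝ) ^ (2 * E + 1 - ε / 2) :=
          Real.rpow_le_rpow_of_exponent_le hnone (by linarith)
      _ ≤ y := hyT
      _ ≤ c₁ := by rw [hxy]; linarith
  · calc (n : ℝ) ^ (4 * E + 2 - ε) = ((n : ℝ) ^ (2 * E + 1 - ε / 2)) ^ 2 := by
          rw [← Real.rpow_natCast, ← Real.rpow_mul hn0.le]
          congr 1
          push_cast; ring
      _ ≤ y ^ 2 := pow_le_pow_left₀ hT0 hyT 2
      _ ≤ c₂ := by rw [hxyq]; nlinarith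

end Pool.Agent.Helper9N
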